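import Pool.Agent.Helper960.Cap.Stmt
import Pool.Agent.Helper960.Cap.One
import Pool.Agent.Helper960.Cap.Three
import Pool.Agent.Helper960.Cap.A1
import Pool.Agent.Helper960.Cap.A2
import Pool.Agent.Helper960.Cap.A3
import Pool.Agent.Helper960.Cap.A4
import Pool.Agent.Helper960.Cap.D1
import Pool.Agent.Helper960.Cap.F1
import Pool.Agent.Helper960.Cap.F2
import Pool.Agent.Helper960.Cap.F3
import Pool.Agent.Helper960.Cap.G1
import Pool.Agent.Helper960.Cap.I1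

open MeasureTheory Filter Topology Set
open scoped ContDiff ENNReal

namespace Pool.Agent.Results.MP_fe4d92_an.Main

open Pool.Agent.Helper960.Cap

/-- The cutting step for good functions. -/
theorem step_good (W : E → ℂ) (hW : Good W) (a : ℝ × ℝ) (ε : ℝ≥0∞) (hε : 0 < ε) (r : ℝ)
    (hr : 0 < r) : ∃ (ρ : ℝ) (W' : E → ℂ), 0 < ρ ∧ ρ < r ∧ Good W' ∧ (∀ x, W x = 0 → W' x = 0) ∧
      (∀ x ∈ U a ρ, W' x = 0) ∧ eLpNorm (fun x => lap W' x - lap W x) 2 volume < ε := by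
  obtain ⟨ρ, W', h1, h2, h3, h4, h5, h6⟩ := F3.step F1.lap_mul F1.lap_sub F1.contDiff_lap F1.hcs_lap
    F1.tsupport_lap F1.lip_bound F2.cutoff F2.tube_volume W hW.1 hW.hcs hW.2.1 a ε hε r hr
  exact ⟨ρ, W', h1, h2, ⟨h3, fun x hx => h4 x (hW.2.1 x hx), fun x hx => h4 x (hW.2.2 x hx)⟩,
    h4, h5, h6⟩

/-- The result in the working notation. -/
theorem result_aux : (∃ Φ : E → ℂ, IsFund Φ) ∧
    ∃ K : Set E, IsCompact K ∧ (∀ Φ : E → ℂ, IsFund Φ → Cond3 Φ K) ∧ ¬ Cond1 K := by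
  refine ⟨A4.exists_fund A1.lap_reg A2.green A3.locInt_inv_cube A3.integrable_reg
    A3.integral_reg_pos, ?_⟩
  set a : ℕ → ℝ × ℝ := TopologicalSpace.denseSeq (ℝ × ℝ) with ha0
  have ha : DenseRange a := TopologicalSpace.denseRange_denseSeq _
  obtain ⟨ρ, h1, h2, h3⟩ := not1 A2.green F1.contDiff_lap F1.hcs_lap F1.tsupport_lap G1.start
    step_good I1.L2tilde_half E1.KK_compact E1.KK_interior a ha
  exact ⟨KK a ρ, E1.KK_compact a ρ, fun Φ hΦ => cond3 D1.bound_ball hΦ a ρ ha h1 h2, h3⟩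

theorem isDist_iff (L : Set E) (f : (E → ℂ) → ℂ) : Stmt.IsDist L f ↔ IsDist L f :=
  ⟨fun h => ⟨h.compact, h.add, h.smul, h.cont, h.supp⟩,
    fun h => ⟨h.compact, h.add, h.smul, h.cont, h.supp⟩⟩

theorem isFund_iff (Φ : E → ℂ) : Stmt.IsFund Stmt.lap5 3 Φ ↔ IsFund Φ :=
  ⟨fun h => ⟨h.smooth, h.locInt, h.hom, h.fund⟩, fun h => ⟨h.smooth, h.locInt, h.hom, h.fund⟩⟩

theorem cap_eq (Φ : E → ℂ) (σ : Set E) : Stmt.cap Φ σ = cap Φ σ := by
  unfold Stmt.cap cap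
  simp only [isDist_iff]
  rfl

theorem capT_eq (Φ : E → ℂ) (σ : Set E) : Stmt.capT Φ σ = capT Φ σ := by
  unfold Stmt.capT capT
  simp only [isDist_iff]
  rfl

theorem cond3_iff (Φ : E → ℂ) (K : Set E) : Stmt.Cond3 Φ K ↔ Cond3 Φ K := by
  unfold Stmt.Cond3 Cond3
  simp only [cap_eq, capT_eq]

theorem cond1_of {K : Set E} (hK : IsCompact K) (h : Stmt.Cond1 Stmt.lap5 K) : Cond1 K := by
  have hfin : IsFiniteMeasure (volume.restrict K) :=
    ⟨by rw [Measure.restrict_apply_univ]; exact hK.measure_lt_top⟩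
  have hmemS : ∀ u : E → ℂ, Continuous u → MemLp u 2 (volume.restrict K) := by
    intro u hu
    obtain ⟨M, hM⟩ := hK.exists_bound_of_continuousOn hu.continuousOn
    exact MemLp.of_bound hu.aestronglyMeasurable M
      ((ae_restrict_iff' hK.isClosed.measurableSet).2 (Eventually.of_forall hM))
  show closure (SK K) = RK K
  ext F
  have key := h F (Lp.memLp F)
  constructor
  · intro hF
    have h1 : ∀ ε : ℝ≥0∞, 0 < ε → ∃ h : E → ℂ, Stmt.InS Stmt.lap5 K h ∧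
        eLpNorm ((F : E → ℂ) - h) 2 (volume.restrict K) < ε := by
      intro ε hε
      obtain ⟨G, ⟨u, hu1, hu2, hu3⟩, hG⟩ := EMetric.mem_closure_iff.1 hF ε hε
      refine ⟨u, ⟨hu1, hu2⟩, ?_⟩
      rw [Lp.edist_def] at hG
      refine lt_of_eq_of_lt (eLpNorm_congr_ae ?_) hG
      filter_upwards [hu3] with x hx
      simp [hx]
    obtain ⟨g, ⟨hg1, hg2, hg3⟩, hg4⟩ := key.1 h1
    exact ⟨g, hg1, hg2, hg3, hg4⟩
  · rintro ⟨g, hg1, hg2, hg3, hg4⟩
    have h1 := key.2 ⟨g, ⟨hg1, hg2, hg3⟩, hg4⟩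
    rw [EMetric.mem_closure_iff]
    intro ε hε
    obtain ⟨u, ⟨hu1, hu2⟩, hu3⟩ := h1 ε hε
    have hu1' : ContDiff ℝ ∞ u := hu1
    have hum := hmemS u hu1'.continuous
    refine ⟨hum.toLp u, ⟨u, hu1, hu2, hum.coeFn_toLp⟩, ?_⟩
    rw [Lp.edist_def]
    refine lt_of_eq_of_lt (eLpNorm_congr_ae ?_) hu3
    filter_upwards [hum.coeFn_toLp] with x hx
    simp [hx]

/-- For the Laplace operator on `ℝ⁵`, `s = 0` and `L²_loc` (so `d = 5/2 - 2 = 1/2 > 0`) there is a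
compact set which satisfies the capacitary condition (3) but not the approximation
property (1). The homogeneous fundamental solution exists. -/
theorem result : Stmt.Negated Stmt.lap5 3 := by
  obtain ⟨⟨Φ0, h0⟩, K, hK, h3, h1⟩ := result_aux
  refine ⟨⟨Φ0, (isFund_iff Φ0).2 h0⟩, K, hK, ?_, ?_⟩
  · intro Φ hΦ
    exact (cond3_iff Φ K).2 (h3 Φ ((isFund_iff Φ).1 hΦ))
  · intro h
    exact h1 (cond1_of hK h)

end Pool.Agent.Results.MP_fe4d92_an.Main
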